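import Pool.Agent.R892.GC.Two

/-!
# The recursion `a (n) = |a (n - 1) - gcd (a (n - 1), m n - 1)|`: the second question implies the first
-/

set_option autoImplicit false

namespace Pool.Agent.Results.MP_019c9a_nt.GrowthImpliesPrimes

open Filter Topology

theorem per_C (m : ℕ) (hm : 1 ≤ m) : ∀ r x : ℕ, r.Prime → 1 ≤ x →
    (r ∣ m * (x + r) - 1 ↔ r ∣ m * x - 1) := by
  intro r x _ hx
  have h1 : 1 ≤ m * x := Nat.mul_pos hm hx
  have e : m * (x + r) - 1 = (m * x - 1) + m * r := by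
    rw [mul_add]
    omega
  rw [e]
  exact (Nat.dvd_add_iff_left (dvd_mul_left r m)).symm

theorem main_C (m : ℕ) (hm : 1 ≤ m) (a : ℕ → ℕ)
    (h : ∀ n, 2 ≤ n → a n = Int.natAbs ((a (n - 1) : ℤ) -
      ((Nat.gcd (a (n - 1)) (m * n - 1) : ℕ) : ℤ))) (z z' : ℕ) (hz1 : 1 ≤ z)
    (hz : a z = 0) (hzz : z < z') (hz' : a z' = 0) (hno : ∀ n, z < n → n < z' → a n ≠ 0) :
    ∀ r, r.Prime → r ∣ m * z' + m - 1 →
      7 * (m * z' + m - 1) ≤ (4 * m + 7) * (m * z + m - 1) + 5 * m + 3 * m * r := by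
  have hsub : ∀ x g : ℕ, g ≤ x → Int.natAbs ((x : ℤ) - (g : ℤ)) = x - g := by
    intro x g hg
    omega
  have hsub0 : ∀ g : ℕ, Int.natAbs (((0 : ℕ) : ℤ) - (g : ℤ)) = g := by
    intro g
    omega
  have H : ∀ n, z < n → n < z' → a (n + 1) = a n - Nat.gcd (a n) ((fun x => m * x - 1) (n + 1)) := by
    intro n h1 h2
    rw [h (n + 1) (by omega), Nat.add_sub_cancel]
    exact hsub _ _ (Nat.gcd_le_left _ (Nat.pos_of_ne_zero (hno n h1 h2)))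
  have h1 : a (z + 1) = (fun x => m * x - 1) (z + 1) := by
    rw [h (z + 1) (by omega), Nat.add_sub_cancel, hz, Nat.gcd_zero_left]
    exact hsub0 _
  have hmz : 2 ≤ m * (z + 1) := by nlinarith
  have hodd : ¬ 2 ∣ (fun x => m * x - 1) (a (z + 1) + (z + 1) + 1) := by
    rw [h1]
    simp only
    have e1 : m * (z + 1) - 1 + (z + 1) + 1 = (m + 1) * (z + 1) := by
      rw [add_mul, one_mul]
      omega
    rw [e1, ← mul_assoc]
    have e2 : m * (m + 1) % 2 = 0 := Nat.even_iff.1 (Nat.even_mul_succ_self m)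
    have e3 : (m * (m + 1) * (z + 1)) % 2 = 0 := by rw [Nat.mul_mod, e2]; simp
    have e4 : 0 < m * (m + 1) * (z + 1) := by positivity
    omega
  obtain ⟨k1, k2⟩ := R892.GC.consec (fun x => m * x - 1) a (per_C m hm) z z' hzz H h1
    (by show 0 < m * (z + 1) - 1; omega) hodd hz' hno
  intro r hr hrz
  have k3 : 7 * z' ≤ 4 * (m * (z + 1) - 1) + 7 * z + 5 + 3 * r := k2 r hr (by
    show r ∣ m * (z' + 1) - 1
    rw [mul_add, mul_one]
    exact hrz)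
  obtain ⟨P, hP⟩ : ∃ P, m * z + m = P + 1 := ⟨m * z + m - 1, by
    rw [mul_add, mul_one] at hmz
    omega⟩
  obtain ⟨P', hP'⟩ : ∃ P', m * z' + m = P' + 1 := ⟨m * z' + m - 1, by
    have : 0 < m * z' := Nat.mul_pos hm (by omega)
    omega⟩
  rw [mul_add, mul_one, hP, Nat.add_sub_cancel] at k3
  rw [hP, hP', Nat.add_sub_cancel, Nat.add_sub_cancel]
  have k4 := Nat.mul_le_mul_left m k3
  nlinarith

/-- from growth to primality -/
theorem grow (m : ℕ) (hm : 1 ≤ m) (P : ℕ → ℕ) (hP2 : ∀ k, k ≤ P k)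
    (hP : ∀ k r, r.Prime → r ∣ P (k + 1) → 7 * P (k + 1) ≤ (4 * m + 7) * P k + 5 * m + 3 * m * r)
    (θ : ℝ) (hθ : 1 + 4 * (m : ℝ) / 7 < θ) (K : ℕ) (hK : ∀ k, K ≤ k → θ * (P k : ℝ) ≤ P (k + 1)) :
    ∃ K : ℕ, ∀ k, K ≤ k → (P k).Prime := by
  have hm0 : (1 : ℝ) ≤ m := by exact_mod_cast hm
  have hθ0 : 0 < θ := by
    have : 0 < 4 * (m : ℝ) / 7 := by positivity
    linarith
  have hδ : 0 < 7 * θ - (4 * m + 7) := by linarith
  obtain ⟨L, hL⟩ := exists_nat_gt ((8 * m * θ / (7 * θ - (4 * m + 7))) ^ 2)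
  refine ⟨K + L + 2, fun k hk => ?_⟩
  obtain ⟨j, rfl⟩ : ∃ j, k = j + 1 := ⟨k - 1, by omega⟩
  by_contra hnp
  have hPk := hP2 (j + 1)
  obtain ⟨s, hs⟩ : ∃ s, s = (P (j + 1)).minFac := ⟨_, rfl⟩
  have hsp : s.Prime := by rw [hs]; exact Nat.minFac_prime (by omega)
  have h1 := hP j s hsp (by rw [hs]; exact Nat.minFac_dvd _)
  have h2 : s ^ 2 ≤ P (j + 1) := by rw [hs]; exact Nat.minFac_sq_le_self (by omega) hnp
  have h3 := hK j (by omega)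
  have h1' : 7 * (P (j + 1) : ℝ) ≤ (4 * m + 7) * P j + 5 * m + 3 * m * s := by exact_mod_cast h1
  have h2' : (s : ℝ) ^ 2 ≤ P (j + 1) := by exact_mod_cast h2
  have hL' : (L : ℝ) < P (j + 1) := by
    have : L < P (j + 1) := by omega
    exact_mod_cast this
  obtain ⟨y, hy⟩ : ∃ y : ℝ, y = √(P (j + 1) : ℝ) := ⟨_, rfl⟩
  have hy0 : 0 ≤ y := by rw [hy]; positivity
  have hy2 : y ^ 2 = P (j + 1) := by rw [hy]; exact Real.sq_sqrt (Nat.cast_nonneg _)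
  have hy1 : 1 ≤ y := by
    have : (1 : ℝ) ≤ y ^ 2 := by
      rw [hy2]
      have : 1 ≤ P (j + 1) := by omega
      exact_mod_cast this
    nlinarith
  have hsy : (s : ℝ) ≤ y := by
    rw [hy]
    exact Real.le_sqrt_of_sq_le h2'
  rw [← hy2] at h1' h3 hL'
  have h4 : θ * (7 * y ^ 2) ≤ (4 * m + 7) * y ^ 2 + θ * (8 * m * y) := by
    have h5 : θ * (7 * y ^ 2) ≤ θ * ((4 * m + 7) * P j + 5 * m + 3 * m * s) :=
      mul_le_mul_of_nonneg_left h1' hθ0.le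
    have h6 : (4 * (m : ℝ) + 7) * (θ * P j) ≤ (4 * m + 7) * y ^ 2 :=
      mul_le_mul_of_nonneg_left h3 (by positivity)
    have h7 : 5 * (m : ℝ) + 3 * m * s ≤ 8 * m * y := by nlinarith
    have h8 := mul_le_mul_of_nonneg_left h7 hθ0.le
    nlinarith
  have h5 : (7 * θ - (4 * m + 7)) * y ≤ 8 * m * θ := by
    by_contra hcon
    push Not at hcon
    nlinarith
  have h6 : y ≤ 8 * m * θ / (7 * θ - (4 * m + 7)) := by
    rw [le_div_iff₀ hδ]
    linarith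
  have h7 : y ^ 2 ≤ (8 * m * θ / (7 * θ - (4 * m + 7))) ^ 2 := by gcongr
  linarith

/-- Let `m ≥ 1`, `a 1 = 1`, `a n = |a (n - 1) - gcd (a (n - 1), m n - 1)|`, let `b` enumerate the
zeros of `a` in increasing order (from `k = 0`), and let `P k = m * b k + m - 1`.

* Every prime factor `r` of `P (k + 1)` satisfies `7 P (k + 1) ≤ (4 m + 7) P k + 5 m + 3 m r`.
* If `P (k + 1) ≥ θ P k` for all large `k`, for some `θ > 1 + 4 m / 7`, then `P k` is prime for all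
  large `k`.
* If `P k / (m + 1) ^ k` has a positive finite limit (the second question for this `m`), then `P k`
  is prime for all large `k` (the first question for this `m`). -/
theorem result (m : ℕ) (hm : 1 ≤ m) (a : ℕ → ℕ) (h1 : a 1 = 1)
    (h : ∀ n : ℕ, 2 ≤ n → a n = Int.natAbs ((a (n - 1) : ℤ) -
      ((Nat.gcd (a (n - 1)) (m * n - 1) : ℕ) : ℤ)))
    (b : ℕ → ℕ) (hb : StrictMono b) (hb' : Set.range b = {n | 1 ≤ n ∧ a n = 0}) :
    (∀ k r : ℕ, r.Prime → r ∣ m * b (k + 1) + m - 1 →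
      7 * (m * b (k + 1) + m - 1) ≤ (4 * m + 7) * (m * b k + m - 1) + 5 * m + 3 * m * r) ∧
    ((∃ θ : ℝ, 1 + 4 * (m : ℝ) / 7 < θ ∧ ∃ K : ℕ, ∀ k, K ≤ k →
        θ * ((m * b k + m - 1 : ℕ) : ℝ) ≤ ((m * b (k + 1) + m - 1 : ℕ) : ℝ)) →
      ∃ K : ℕ, ∀ k, K ≤ k → (m * b k + m - 1).Prime) ∧
    ((∃ c : ℝ, 0 < c ∧ Tendsto (fun k => ((m * b k + m - 1 : ℕ) : ℝ) / ((m : ℝ) + 1) ^ k) atTop (𝓝 c)) →
      ∃ K : ℕ, ∀ k, K ≤ k → (m * b k + m - 1).Prime) := by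
  have hmem : ∀ k, 1 ≤ b k ∧ a (b k) = 0 := fun k => by
    have : b k ∈ Set.range b := ⟨k, rfl⟩
    rw [hb'] at this
    exact this
  have hP : ∀ k r : ℕ, r.Prime → r ∣ m * b (k + 1) + m - 1 →
      7 * (m * b (k + 1) + m - 1) ≤ (4 * m + 7) * (m * b k + m - 1) + 5 * m + 3 * m * r := by
    intro k
    refine main_C m hm a h (b k) (b (k + 1)) (hmem k).1 (hmem k).2 (hb (Nat.lt_succ_self k))
      (hmem (k + 1)).2 ?_
    intro n hn1 hn2 hn0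
    have : n ∈ Set.range b := by
      rw [hb']
      exact ⟨by omega, hn0⟩
    obtain ⟨j, rfl⟩ := this
    have h3 := hb.lt_iff_lt.1 hn1
    have h4 := hb.lt_iff_lt.1 hn2
    omega
  have hge : ∀ k, k ≤ m * b k + m - 1 := by
    intro k
    have h3 : k ≤ b k := hb.le_apply
    have h4 : b k ≤ m * b k := Nat.le_mul_of_pos_left _ hm
    omega
  have key : ∀ θ : ℝ, 1 + 4 * (m : ℝ) / 7 < θ → (∃ K : ℕ, ∀ k, K ≤ k →
        θ * ((m * b k + m - 1 : ℕ) : ℝ) ≤ ((m * b (k + 1) + m - 1 : ℕ) : ℝ)) →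
      ∃ K : ℕ, ∀ k, K ≤ k → (m * b k + m - 1).Prime := by
    rintro θ hθ ⟨K, hK⟩
    exact grow m hm (fun k => m * b k + m - 1) hge hP θ hθ K hK
  refine ⟨hP, fun ⟨θ, hθ, hK⟩ => key θ hθ hK, ?_⟩
  rintro ⟨c, hc, hlim⟩
  have hm0 : (1 : ℝ) ≤ m := by exact_mod_cast hm
  -- `θ = 1 + 5 m / 7`
  refine key (1 + 5 * (m : ℝ) / 7) (by linarith) ?_
  have hlim' := hlim.comp (tendsto_add_atTop_nat 1)
  have hdiff : Tendsto (fun k : ℕ => ((m : ℝ) + 1) *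
      (((m * b (k + 1) + m - 1 : ℕ) : ℝ) / ((m : ℝ) + 1) ^ (k + 1)) - (1 + 5 * (m : ℝ) / 7) *
      (((m * b k + m - 1 : ℕ) : ℝ) / ((m : ℝ) + 1) ^ k)) atTop
      (𝓝 (((m : ℝ) + 1) * c - (1 + 5 * (m : ℝ) / 7) * c)) :=
    (hlim'.const_mul _).sub (hlim.const_mul _)
  have hpos : 0 < ((m : ℝ) + 1) * c - (1 + 5 * (m : ℝ) / 7) * c := by nlinarith
  obtain ⟨K, hK⟩ := eventually_atTop.1 (hdiff.eventually_const_lt hpos)
  refine ⟨K, fun k hk => ?_⟩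
  have h3 := hK k hk
  have hp : 0 < ((m : ℝ) + 1) ^ k := by positivity
  have e1 : ((m : ℝ) + 1) * (((m * b (k + 1) + m - 1 : ℕ) : ℝ) / ((m : ℝ) + 1) ^ (k + 1)) =
      ((m * b (k + 1) + m - 1 : ℕ) : ℝ) / ((m : ℝ) + 1) ^ k := by
    rw [pow_succ]
    have : (m : ℝ) + 1 ≠ 0 := by positivity
    field_simp
  rw [e1, ← mul_div_assoc, ← sub_div] at h3
  have h4 := (div_pos_iff_of_pos_right hp).1 h3
  linarith

end Pool.Agent.Results.MP_019c9a_nt.GrowthImpliesPrimes
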